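import Pool.Agent.Helper65.KG.Asm2

namespace Pool.Agent.Results.MP_277ac5_nt.CubicGrowth

/-- For every real quadratic field `K = ℚ(√d)` there are `A`, `c > 0` and `L` such that for all
`l ≥ L` the number of `x` in `K` that are purely periodic continued fractions with a period
`n ≤ l` and all entries of the period between `1` and `A` is at least `c l ^ 3`. -/
theorem result : ∀ d : ℕ, ¬ IsSquare d →
    ∃ A : ℕ, ∃ c : ℝ, 0 < c ∧ ∃ L : ℕ, ∀ ℓ : ℕ, L ≤ ℓ →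
      c * (ℓ : ℝ) ^ 3 ≤
        (({x : ℝ | (∃ p q : ℚ, x = (p : ℝ) + (q : ℝ) * Real.sqrt (d : ℝ)) ∧
            ∃ n : ℕ, 1 ≤ n ∧ n ≤ ℓ ∧ ∃ a : ℕ → ℕ, Function.Periodic a n ∧
              (∀ k, 1 ≤ a k ∧ a k ≤ A) ∧
              ∀ k : ℕ, ⌊(fun y : ℝ => (Int.fract y)⁻¹)^[k] x⌋ = (a k : ℤ)}).ncard : ℝ) :=
  fun d hd => Pool.Agent.Helper65.KG.main d hd

end Pool.Agent.Results.MP_277ac5_nt.CubicGrowth
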