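import Pool.Agent.Helper65.KF.Asm

namespace Pool.Agent.Results.MP_277ac5_nt.CubicGrowthSqrtFive

/-- For the field `ℚ(√5)` and every `ℓ ≥ 100000` the number of `x` in the field that are purely
periodic continued fractions with a period `n ≤ ℓ` and all entries of the period equal to 1, 2, 3
or 4 is at least `ℓ ^ 3 / (8 * 10 ^ 12)`. -/
theorem result : ∀ ℓ : ℕ, 100000 ≤ ℓ →
    (ℓ : ℝ) ^ 3 / 8000000000000 ≤
      (({x : ℝ | (∃ p q : ℚ, x = (p : ℝ) + (q : ℝ) * Real.sqrt 5) ∧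
          ∃ n : ℕ, 1 ≤ n ∧ n ≤ ℓ ∧ ∃ a : ℕ → ℕ, Function.Periodic a n ∧
            (∀ k, 1 ≤ a k ∧ a k ≤ 4) ∧
            ∀ k : ℕ, ⌊(fun y : ℝ => (Int.fract y)⁻¹)^[k] x⌋ = (a k : ℤ)}).ncard : ℝ) :=
  fun l hl => Pool.Agent.Helper65.KF.main l hl

end Pool.Agent.Results.MP_277ac5_nt.CubicGrowthSqrtFive
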