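import Pool.Agent.Helper20.MC.Asm4

namespace Pool.Agent.Results.MP_277ac5_nt.RelaxedChaos

/-- There is an absolute constant `C` such that for every real quadratic field `K = ℚ(√d)` and
all large `l` at least `exp (l / 25)` numbers of `K` are purely periodic continued fractions with
a period `n ≤ l`, all partial quotients at most `C l`, and, for every `T ≥ 1`, at most
`C (1 + log T)² n / T` of the `n` partial quotients of the period larger than `T`. -/
theorem result : ∃ C : ℕ, ∀ d : ℕ, ¬ IsSquare d → ∃ L : ℕ, ∀ l : ℕ, L ≤ l →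
    ∃ S : Finset ℝ, Real.exp ((l : ℝ) / 25) ≤ (S.card : ℝ) ∧ ∀ x ∈ S,
      (∃ p q : ℚ, x = (p : ℝ) + (q : ℝ) * Real.sqrt (d : ℝ)) ∧
      ∃ n : ℕ, 1 ≤ n ∧ n ≤ l ∧ ∃ a : ℕ → ℕ, Function.Periodic a n ∧
        (∀ k, 1 ≤ a k ∧ a k ≤ C * l) ∧
        (∀ T : ℕ, 1 ≤ T → (((Finset.range n).filter (fun k => T < a k)).card : ℝ) ≤
          C * (1 + Real.log T) ^ 2 / T * n) ∧
        ∀ k : ℕ, ⌊(fun y : ℝ => (Int.fract y)⁻¹)^[k] x⌋ = (a k : ℤ) :=
  Pool.Agent.Helper20.MC.main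

end Pool.Agent.Results.MP_277ac5_nt.RelaxedChaos
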